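import Pool.Agent.helper91.MM.SpecB

/-!
# MP_bfc607_gt, row EXC: exclusion of a point
-/

set_option autoImplicit false

namespace Pool.Agent.MM

open Pool.Agent.Scheepers Filter Topology Cardinal

theorem EXC_block {S : Sys} (p : Cnd S) (c : ℕ → Bool) {N N' j : ℕ} (hN : N ≤ N')
    (hex : ∀ t ∈ S.V N, ∀ Q : Set (ℕ × ℕ),
      (∃ w ∈ Q, insert w t ∈ S.V N') ∨ ∃ w, w ∉ Q ∧ w ∉ t ∧ w.1 ≤ N' ∧ w.2 ≤ N')
    (hL : Lg S N' (p.A j) (p.a j) (p.a (j + 1))) (t : Set (ℕ × ℕ)) (ht : t ∈ S.V N) :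
    ∃ u ∈ p.A j, (∀ e, p.a j ≤ e → e < p.a (j + 1) → pos e ∈ t → u e = false) ∧
      ∃ e, p.a j ≤ e ∧ e < p.a (j + 1) ∧ u e ≠ c e := by
  have ht' : t ∈ S.V N' := S.mono N N' hN ht
  rcases hex t ht {w' | ∃ e, p.a j ≤ e ∧ e < p.a (j + 1) ∧ pos e = w' ∧ c e = true} with
    ⟨w', ⟨e, he1, he2, he3, he4⟩, hins⟩ | ⟨w', hw1, hw2, hw3, hw4⟩
  · obtain ⟨w2, k1, k2, k3⟩ := S.out N' _ hins
    obtain ⟨u, hu, hu2, -⟩ := hL _ hins w2 k1 k2 k3
    refine ⟨u, hu, fun e' a b h => hu2 e' a b (Set.mem_insert_of_mem _ h), e, he1, he2, ?_⟩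
    have h5 : u e = false := hu2 e he1 he2 (by rw [he3]; exact Set.mem_insert _ _)
    rw [h5, he4]
    exact Bool.false_ne_true
  · obtain ⟨u, hu, hu2, e, he1, he2, he3, he4⟩ := hL t ht' w' hw3 hw4 hw2
    refine ⟨u, hu, hu2, e, he1, he2, ?_⟩
    intro h
    apply hw1
    exact ⟨e, he1, he2, he3, by rw [← h]; exact he4⟩

theorem EXC (h1 : XBK_stmt) (h2 : BLD_stmt) : EXC_stmt := by
  intro S p c
  classical
  have hlt : ∀ j, p.a j < p.a (j + 1) := fun j => p.mono (Nat.lt_succ_self j)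
  have hcnd : ∃ q : Cnd S, (∀ j, q.a j = p.a (2 * j)) ∧ ∀ j, q.A j =
      {u | u ∈ p.A (2 * j) ∧ u ∈ p.A (2 * j + 1) ∧
        ∃ e, p.a (2 * j + 1) ≤ e ∧ e < p.a (2 * j + 1 + 1) ∧ u e ≠ c e} := by
    refine ⟨{ a := fun j => p.a (2 * j)
              A := fun j => {u | u ∈ p.A (2 * j) ∧ u ∈ p.A (2 * j + 1) ∧
                ∃ e, p.a (2 * j + 1) ≤ e ∧ e < p.a (2 * j + 1 + 1) ∧ u e ≠ c e}
              mono := ?_
              loc := ?_
              large := ?_ }, fun j => rfl, fun j => rfl⟩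
    · intro i j hij
      exact p.mono (by omega)
    · intro j u v huv hu
      obtain ⟨u1, u2, e, e1, e2, e3⟩ := hu
      have h22 : 2 * (j + 1) = 2 * j + 1 + 1 := by ring
      have l1 := hlt (2 * j)
      have l2 := hlt (2 * j + 1)
      have huv' : ∀ e, p.a (2 * j) ≤ e → e < p.a (2 * j + 1 + 1) → u e = v e := by
        intro e a b
        apply huv e a
        show e < p.a (2 * (j + 1))
        rw [h22]
        exact b
      refine ⟨p.loc _ u v (fun e a b => huv' e a (by omega)) u1,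
        p.loc _ u v (fun e a b => huv' e (by omega) b) u2, e, e1, e2, ?_⟩
      rw [← huv' e (by omega) e2]
      exact e3
    · intro N
      obtain ⟨N', hN, hex⟩ := S.excl N
      obtain ⟨J, hJ⟩ := p.large N'
      refine ⟨J, fun j hj => ?_⟩
      intro t ht w hw1 hw2 hwt
      have h22 : 2 * (j + 1) = 2 * j + 1 + 1 := by ring
      have l1 := hlt (2 * j)
      have l2 := hlt (2 * j + 1)
      obtain ⟨u, hu, hu2, e0, a1, a2, a3, a4⟩ := hJ (2 * j) (by omega) t (S.mono N N' hN ht) w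
        (by omega) (by omega) hwt
      obtain ⟨u', hu', hu2', e1, b1, b2, b3⟩ := EXC_block p c hN hex (hJ (2 * j + 1) (by omega)) t ht
      refine ⟨fun e => if e < p.a (2 * j + 1) then u e else u' e, ⟨?_, ?_, ?_⟩, ?_, ?_⟩
      · refine p.loc _ u _ (fun e a b => ?_) hu
        rw [if_pos b]
      · refine p.loc _ u' _ (fun e a b => ?_) hu'
        rw [if_neg (by omega)]
      · refine ⟨e1, b1, b2, ?_⟩
        show (if e1 < p.a (2 * j + 1) then u e1 else u' e1) ≠ c e1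
        rw [if_neg (by omega)]
        exact b3
      · intro e a b hpos
        have b' : e < p.a (2 * j + 1 + 1) := by
          rw [← h22]
          exact b
        show (if e < p.a (2 * j + 1) then u e else u' e) = false
        by_cases he : e < p.a (2 * j + 1)
        · rw [if_pos he]
          exact hu2 e a he hpos
        · rw [if_neg he]
          exact hu2' e (by omega) b' hpos
      · refine ⟨e0, a1, ?_, a3, ?_⟩
        · show e0 < p.a (2 * (j + 1))
          rw [h22]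
          omega
        · show (if e0 < p.a (2 * j + 1) then u e0 else u' e0) = true
          rw [if_pos a2]
          exact a4
  obtain ⟨q, hqa, hqA⟩ := hcnd
  refine ⟨q, ⟨0, fun i _ => ⟨⟨2 * i, (hqa i).symm⟩, ?_⟩⟩, ?_⟩
  · intro u hu
    rw [hqA] at hu
    obtain ⟨u1, u2, -⟩ := hu
    intro j hj1 hj2
    rw [hqa] at hj1
    rw [hqa] at hj2
    have k1 : 2 * i ≤ j := p.mono.le_iff_le.mp hj1
    have k2 : j + 1 ≤ 2 * (i + 1) := p.mono.le_iff_le.mp hj2
    have k3 : j = 2 * i ∨ j = 2 * i + 1 := by omega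
    rcases k3 with k | k
    · rw [k]; exact u1
    · rw [k]; exact u2
  · rintro ⟨J, hJ⟩
    have h := hJ J le_rfl
    rw [hqA] at h
    obtain ⟨-, -, e, -, -, he⟩ := h
    exact he rfl

end Pool.Agent.MM
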